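import Pool.Agent.J4H74.AS.Gen
import Pool.Agent.W175.GF.Final
import Pool.Agent.W253.GF.GTD

/-!
# The full Ax–Schanuel inequality for the Gamma function after almost every translation

Let `Z` be any germ of an analytic set in `ℂ ^ n` on which no coordinate is constant, given by analytic functions
`f_1, …, f_n` on a connected open set `D`. We show that for almost every `c` in `ℂ ^ n` the `n` functions
`Γ(f_1 + c_1), …, Γ(f_n + c_n)` are algebraically independent over the field generated by `f_1, …, f_n`, and even
over the field generated by `ℂ` and any given sequence `φ_0, φ_1, …` of analytic functions on `D` (which may contain the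
`f_i`, `exp f_i`, derivatives, and so on). In particular the translate `Z + c` satisfies
`trdeg ℂ(z, Γ(z)) ≥ trdeg ℂ(z) + n ≥ dim Z + n`, the full inequality of Ax–Schanuel type. Condition (H) of the conjecture is
not assumed for the `f_i`; the exceptional `c` lie in countably many hypersurfaces `H_m = 0`, `H_m ≠ 0` entire.

The relations may have arbitrary complex coefficients which depend on `c` in any way. Idea of the proof: if for many `c`
there is a relation between given products `b_k Γ(f_1 + c_1) ^ γ_1 ⋯ Γ(f_n + c_n) ^ γ_n`, the `b_k` being linearly independent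
functions, then the determinants of the values of these products at points `t_1, …, t_K` of `D` which do not depend on `c`
vanish. For generic points the numbers `f_j(t_i) - f_j(t_i')` are irrational, and by the Ax–Lindemann theorem for `Γ` (a
starting result) the functions `Γ(f_j(t_i) + c_j)` of `c` are algebraically independent; but the determinant is a nonzero
polynomial in these functions.
-/

set_option autoImplicit false

namespace Pool.Agent.Results.MP_26ad15_nt.GenericTranslates

theorem result (N n : ℕ) (D : Set (Fin N → ℂ)) (f : Fin n → (Fin N → ℂ) → ℂ)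
    (φ : ℕ → (Fin N → ℂ) → ℂ) (hD : IsOpen D) (hp : IsPreconnected D) (hne : D.Nonempty)
    (hf : ∀ i, AnalyticOnNhd ℂ (f i) D) (hc : ∀ i, ∀ v : ℂ, ¬ ∀ t ∈ D, f i t = v)
    (hφ : ∀ k, AnalyticOnNhd ℂ (φ k) D) :
    ∃ H : ℕ → (Fin n → ℂ) → ℂ, (∀ m, Differentiable ℂ (H m) ∧ ∃ c, H m c ≠ 0) ∧
      ∀ c, (∀ m, H m c ≠ 0) → ∀ P : MvPolynomial (Fin n) (MvPolynomial ℕ ℂ),
        (∃ t ∈ D, P.map (MvPolynomial.eval fun k => φ k t) ≠ 0) →
        ∃ t ∈ D, (∀ j, ∀ l : ℕ, f j t + c j ≠ -l) ∧
          MvPolynomial.eval (fun j => Complex.Gamma (f j t + c j))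
            (P.map (MvPolynomial.eval fun k => φ k t)) ≠ 0 :=
  Pool.Agent.J4H74.AS.generic (Pool.Agent.W253.GF.gtd Pool.Agent.W175.GF.gtF) hD hp hne hf hc hφ

end Pool.Agent.Results.MP_26ad15_nt.GenericTranslates
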